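import Mathlib

/-!
A group `Γ` acts on an abelian group `M`; a descending central-like chain `N 0 ≥ N 1 ≥ ...` of
subgroups of `Γ` with `[Γ, N i] ≤ N (i+1)`; every element of `Γ` moves every point of `M` inside
its `N 0`-orbit.  Functions `F : M → U` whose additivity defect is `N 0`-invariant become additive
after boundedly many differences `F ↦ F ∘ γ - F`.
-/

set_option autoImplicit false

namespace Pool.Agent.Helper973_Cls

variable {Γ M U : Type*} [Group Γ] [AddCommGroup M] [AddCommGroup U] [DistribMulAction Γ M]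

/-- the additivity defect -/
def D (F : M → U) (a b : M) : U := F a + F b - F (a + b)

/-- the twisted difference -/
def tw (γ : Γ) (F : M → U) : M → U := fun θ => F (γ • θ) - F θ

theorem D_tw (γ : Γ) (F : M → U) (a b : M) :
    D (tw γ F) a b = D F (γ • a) (γ • b) - D F a b := by
  simp only [D, tw, smul_add]
  abel

/-- the data of the chain -/
structure Sys (N : ℕ → Subgroup Γ) (M : Type*) [AddCommGroup M] [DistribMulAction Γ M] : Prop where
  anti : Antitone N
  comm : ∀ i, ∀ γ : Γ, ∀ n ∈ N i, γ * n * γ⁻¹ * n⁻¹ ∈ N (i + 1)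
  loc : ∀ γ : Γ, ∀ θ : M, ∃ n ∈ N 0, γ • θ = n • θ

/-- the defect of `F` is `N 0`-invariant -/
def Inv (N : ℕ → Subgroup Γ) (F : M → U) : Prop :=
  ∀ n ∈ N 0, ∀ a b : M, D F (n • a) (n • b) = D F a b

/-- `F` is additive in the direction of `I` -/
def Lin (I : AddSubgroup M) (F : M → U) : Prop := ∀ a, ∀ b ∈ I, D F a b = 0

/-- `x` is, modulo `I`, of the form `c φ - φ` with `c ∈ N j` -/
def InM (N : ℕ → Subgroup Γ) (I : AddSubgroup M) (j : ℕ) (x : M) : Prop :=
  ∃ c ∈ N j, ∃ φ : M, x - (c • φ - φ) ∈ I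

/-- the vanishing condition `S(i,j)` -/
def S (N : ℕ → Subgroup Γ) (I : AddSubgroup M) (i j : ℕ) (F : M → U) : Prop :=
  ∀ h ∈ N i, ∀ χ : M, InM N I j (h • χ - χ) → D F χ (h • χ - χ) = 0

/-- `I` is a `Γ`-stable subgroup modulo which `N (j+1)` acts trivially -/
structure Lev (N : ℕ → Subgroup Γ) (I : AddSubgroup M) (j : ℕ) : Prop where
  stab : ∀ γ : Γ, ∀ x ∈ I, γ • x ∈ I
  triv : ∀ c ∈ N (j + 1), ∀ φ : M, c • φ - φ ∈ I

variable {N : ℕ → Subgroup Γ} {I : AddSubgroup M} {j : ℕ} {F : M → U}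

theorem Sys.conj_mem (hN : Sys N M) {i : ℕ} {n : Γ} (hn : n ∈ N i) (γ : Γ) :
    γ * n * γ⁻¹ ∈ N i := by
  have h1 := hN.anti (Nat.le_succ i) (hN.comm i γ n hn)
  have h2 : γ * n * γ⁻¹ = (γ * n * γ⁻¹ * n⁻¹) * n := by group
  rw [h2]
  exact (N i).mul_mem h1 hn

theorem Inv.tw (hN : Sys N M) (hF : Inv N F) (γ : Γ) : Inv N (tw γ F) := by
  intro n hn a b
  have key : ∀ x : M, γ • n • x = (γ * n * γ⁻¹) • γ • x := by
    intro x
    simp [mul_smul]
  rw [D_tw, D_tw, key, key, hF _ (hN.conj_mem hn γ), hF n hn]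

theorem Lin.tw (hst : ∀ γ : Γ, ∀ x ∈ I, γ • x ∈ I) (hF : Lin I F) (γ : Γ) : Lin I (tw γ F) := by
  intro a b hb
  rw [D_tw, hF _ _ (hst γ b hb), hF _ _ hb, sub_zero]

theorem Lin.add (hF : Lin I F) (a : M) {b : M} (hb : b ∈ I) : F (a + b) = F a + F b := by
  have h := hF a b hb
  rw [D, sub_eq_zero] at h
  exact h.symm

/-- `D F` only depends on classes modulo `I` -/
theorem Lin.congr (hF : Lin I F) {a a' b b' : M} (ha : a - a' ∈ I) (hb : b - b' ∈ I) :
    D F a b = D F a' b' := by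
  have h1 : F a = F a' + F (a - a') := by
    rw [← hF.add a' ha]; congr 1; abel
  have h2 : F b = F b' + F (b - b') := by
    rw [← hF.add b' hb]; congr 1; abel
  have h3 : F (a + b) = F (a' + b') + (F (a - a') + F (b - b')) := by
    rw [← hF.add (a - a') hb, ← hF.add (a' + b') (I.add_mem ha hb)]
    congr 1; abel
  simp only [D]
  rw [h3, h1, h2]
  abel

/-- normalisation: `γ` may be replaced by an element fixing a given point -/
theorem Sys.norm (hN : Sys N M) (γ : Γ) (α : M) :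
    ∃ δ : Γ, δ • α = α ∧ ∀ F : M → U, Inv N F → ∀ a b : M,
      D F (γ • a) (γ • b) = D F (δ • a) (δ • b) := by
  obtain ⟨n, hn, hn'⟩ := hN.loc γ α
  refine ⟨n⁻¹ * γ, ?_, ?_⟩
  · rw [mul_smul, hn', inv_smul_smul]
  · intro F hF a b
    rw [← hF n hn ((n⁻¹ * γ) • a) ((n⁻¹ * γ) • b)]
    simp [mul_smul]

theorem InM.of_mem (c : Γ) (hc : c ∈ N j) (φ : M) : InM N I j (c • φ - φ) :=
  ⟨c, hc, φ, by simp⟩

theorem InM.smul (hN : Sys N M) (hI : ∀ γ : Γ, ∀ x ∈ I, γ • x ∈ I) {x : M} (hx : InM N I j x)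
    (g : Γ) : InM N I j (g • x) := by
  obtain ⟨c, hc, φ, h⟩ := hx
  refine ⟨g * c * g⁻¹, hN.conj_mem hc g, g • φ, ?_⟩
  have h1 := hI g _ h
  have h2 : g • x - ((g * c * g⁻¹) • g • φ - g • φ) = g • (x - (c • φ - φ)) := by
    simp only [smul_sub, mul_smul, inv_smul_smul]
  rw [h2]
  exact h1

theorem InM.move (hN : Sys N M) (hL : Lev N I j) {x : M} (hx : InM N I j x)
    (δ : Γ) : InM N I j (δ • x - x) := by
  obtain ⟨c, hc, φ, h⟩ := hx
  refine ⟨c, hc, δ • φ - φ, ?_⟩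
  have h1 := hL.stab δ _ h
  have h2 := hL.triv _ (hN.comm j δ c hc) (c • δ • φ)
  have h3 : (δ * c * δ⁻¹ * c⁻¹) • c • δ • φ = δ • c • φ := by
    simp only [← mul_smul]
    congr 1
    group
  rw [h3] at h2
  have h4 : δ • x - x - (c • (δ • φ - φ) - (δ • φ - φ))
      = δ • (x - (c • φ - φ)) - (x - (c • φ - φ)) + (δ • c • φ - c • δ • φ) := by
    simp only [smul_sub]
    abel
  rw [h4]
  exact I.add_mem (I.sub_mem h1 h) h2

/-- the centrality identity -/
theorem central (hN : Sys N M) (hL : Lev N I j) (hInv : Inv N F) (hLin : Lin I F) {c l : Γ}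
    (hc : c ∈ N j) (hl : l ∈ N 0) (φ : M) :
    D F (c • φ - φ) (l • (c • φ - φ) - (c • φ - φ))
      = D F (l • φ - φ) (c • (l • φ - φ) - (l • φ - φ)) := by
  have h1 := hInv l hl φ (c • φ - φ)
  have h2 := hInv c (hN.anti (Nat.zero_le j) hc) φ (l • φ - φ)
  have h3 := hL.triv _ (hN.comm j l c hc) (c • l • φ)
  have h4 : (l * c * l⁻¹ * c⁻¹) • c • l • φ = l • c • φ := by
    simp only [← mul_smul]
    congr 1
    group
  rw [h4] at h3
  have h5 := hLin.add (c • l • φ) h3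
  have h6 := hLin.add (c • (l • φ - φ) - (l • φ - φ)) h3
  have e1 : c • l • φ + (l • c • φ - c • l • φ) = l • c • φ := by abel
  have e2 : c • (l • φ - φ) - (l • φ - φ) + (l • c • φ - c • l • φ)
      = l • (c • φ - φ) - (c • φ - φ) := by
    simp only [smul_sub]
    abel
  rw [e1] at h5
  rw [e2] at h6
  simp only [D] at h1 h2 ⊢
  have e3 : l • φ + l • (c • φ - φ) = l • c • φ := by rw [smul_sub]; abel
  have e4 : φ + (c • φ - φ) = c • φ := by abel
  have e5 : c • φ + c • (l • φ - φ) = c • l • φ := by rw [smul_sub]; abel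
  have e6 : φ + (l • φ - φ) = l • φ := by abel
  have e7 : c • φ - φ + (l • (c • φ - φ) - (c • φ - φ)) = l • (c • φ - φ) := by abel
  have e8 : l • φ - φ + (c • (l • φ - φ) - (l • φ - φ)) = c • (l • φ - φ) := by abel
  rw [e3, e4] at h1
  rw [e5, e6] at h2
  rw [e7, e8, h6]
  rw [h5] at h1
  generalize F (c • l • φ) = x1 at *
  generalize F (l • c • φ - c • l • φ) = x2 at *
  generalize F (c • φ - φ) = x3 at *
  generalize F (l • φ - φ) = x4 at *
  generalize F (l • (c • φ - φ)) = x5 at *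
  generalize F (c • (l • φ - φ)) = x6 at *
  generalize F (c • φ) = x7 at *
  generalize F (l • φ) = x8 at *
  generalize F φ = x9 at *
  generalize F (c • (l • φ - φ) - (l • φ - φ)) = x10 at *
  linear_combination (norm := abel) h2 - h1

/-- vanishing at `N j` itself -/
theorem S.diag {i : ℕ} (hN : Sys N M) (hij : i ≤ j) (hS : S N I i j F) {c : Γ} (hc : c ∈ N j)
    (χ : M) : D F χ (c • χ - χ) = 0 :=
  hS c (hN.anti hij hc) χ (InM.of_mem c hc χ)

/-- if `P_φ(c) = 0` for all `c ∈ N j` then `P_ζ(l) = 0` for all `ζ` of the form `c φ - φ` -/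
theorem zeta (hN : Sys N M) (hL : Lev N I j) (hInv : Inv N F) (hLin : Lin I F)
    (hS : ∀ c ∈ N j, ∀ χ : M, D F χ (c • χ - χ) = 0) {ζ : M} (hζ : InM N I j ζ) {l : Γ}
    (hl : l ∈ N 0) : D F ζ (l • ζ - ζ) = 0 := by
  obtain ⟨c, hc, φ, h⟩ := hζ
  have h1 : D F ζ (l • ζ - ζ) = D F (c • φ - φ) (l • (c • φ - φ) - (c • φ - φ)) := by
    refine hLin.congr h ?_
    have h2 : l • ζ - ζ - (l • (c • φ - φ) - (c • φ - φ))
        = l • (ζ - (c • φ - φ)) - (ζ - (c • φ - φ)) := by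
      simp only [smul_sub]
      abel
    rw [h2]
    exact I.sub_mem (hL.stab l _ h) h
  rw [h1, central hN hL hInv hLin hc hl]
  exact hS c hc _

/-- first step of a level -/
theorem step_one (hN : Sys N M) (hL : Lev N I j) (hInv : Inv N F) (hLin : Lin I F) (γ : Γ) :
    ∀ c ∈ N j, ∀ χ : M, D (tw γ F) χ (c • χ - χ) = 0 := by
  intro c hc χ
  obtain ⟨δ, hδ, hδ'⟩ := hN.norm (U := U) γ χ
  rw [D_tw, hδ' F hInv, hδ, sub_eq_zero]
  refine hLin.congr (by simp [I.zero_mem]) ?_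
  have h1 := hL.triv _ (hN.comm j δ c hc) (c • χ)
  have hδi : δ⁻¹ • χ = χ := inv_smul_eq_iff.mpr hδ.symm
  have h2 : (δ * c * δ⁻¹ * c⁻¹) • c • χ = δ • c • χ := by
    simp only [mul_smul, inv_smul_smul, hδi]
  rw [h2] at h1
  have h3 : δ • (c • χ - χ) - (c • χ - χ) = δ • c • χ - c • χ := by
    rw [smul_sub, hδ]
    abel
  rw [h3]
  exact h1

/-- the cocycle identity -/
theorem D_move (F : M → U) (χ ζ ξ : M) :
    D F χ ξ - D F χ ζ = D F (χ + ζ) (ξ - ζ) - D F ζ (ξ - ζ) := by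
  simp only [D]
  have e1 : χ + ζ + (ξ - ζ) = χ + ξ := by abel
  have e2 : ζ + (ξ - ζ) = ξ := by abel
  rw [e1, e2]
  abel

/-- the expansion of the difference of `P_χ(h)` -/
theorem expand (hInv : Inv N F) {h : Γ} (hh : h ∈ N 0) {χ : M} {δ : Γ} (hδ : δ • χ = χ) :
    h⁻¹ • (δ • (h • χ - χ) - (h • χ - χ)) = (h⁻¹ * δ * h * δ⁻¹) • χ - χ ∧
    D F χ (δ • (h • χ - χ)) - D F χ (h • χ - χ)
      = D F χ ((h⁻¹ * δ * h * δ⁻¹) • χ - χ)
        - D F (h • χ - χ) (δ • (h • χ - χ) - (h • χ - χ)) := by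
  have hδi : δ⁻¹ • χ = χ := inv_smul_eq_iff.mpr hδ.symm
  have h1 : h⁻¹ • (δ • (h • χ - χ) - (h • χ - χ)) = (h⁻¹ * δ * h * δ⁻¹) • χ - χ := by
    simp only [mul_smul, smul_sub, inv_smul_smul, hδi, hδ]
    abel
  refine ⟨h1, ?_⟩
  rw [D_move, ← hInv h⁻¹ ((N 0).inv_mem hh) (χ + (h • χ - χ)), h1]
  congr 2
  have e : χ + (h • χ - χ) = h • χ := by abel
  rw [e, inv_smul_smul]

theorem e_mem (hN : Sys N M) {i : ℕ} {h : Γ} (hh : h ∈ N i) (δ : Γ) :
    h⁻¹ * δ * h * δ⁻¹ ∈ N (i + 1) := by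
  have h1 := (N (i + 1)).inv_mem (hN.comm i δ h⁻¹ ((N i).inv_mem hh))
  have h2 : (δ * h⁻¹ * δ⁻¹ * h⁻¹⁻¹)⁻¹ = h⁻¹ * δ * h * δ⁻¹ := by group
  rwa [h2] at h1

/-- middle steps of a level -/
theorem step_two (hN : Sys N M) (hL : Lev N I j) (hInv : Inv N F) (hLin : Lin I F) {i : ℕ}
    (hij : i + 1 ≤ j) (hS : S N I (i + 1) j F) (γ : Γ) : S N I i j (tw γ F) := by
  intro h hh χ hχ
  obtain ⟨δ, hδ, hδ'⟩ := hN.norm (U := U) γ χ
  obtain ⟨h1, h2⟩ := expand hInv (hN.anti (Nat.zero_le i) hh) hδ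
  rw [D_tw, hδ' F hInv, hδ, h2]
  have h3 : InM N I j ((h⁻¹ * δ * h * δ⁻¹) • χ - χ) := by
    rw [← h1]
    exact InM.smul hN hL.stab (InM.move hN hL hχ δ) _
  rw [hS _ (e_mem hN hh δ) χ h3, zero_sub, neg_eq_zero]
  obtain ⟨l, hl, hl'⟩ := hN.loc δ (h • χ - χ)
  rw [hl']
  exact zeta hN hL hInv hLin (fun c hc χ => S.diag hN hij hS hc χ) hχ hl

/-- last step of a level: additivity in the direction of the `c φ - φ` -/
theorem step_three (hN : Sys N M) (hL : Lev N I j) (hInv : Inv N F) (hLin : Lin I F)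
    (hS : S N I 0 j F) (γ : Γ) (α : M) {β : M} (hβ : InM N I j β) : D (tw γ F) α β = 0 := by
  obtain ⟨δ, hδ, hδ'⟩ := hN.norm (U := U) γ α
  rw [D_tw, hδ' F hInv, hδ, D_move]
  obtain ⟨l, hl, hl'⟩ := hN.loc δ β
  obtain ⟨m, hm, hm'⟩ := hN.loc δ (α + β)
  have h1 : D F β (δ • β - β) = 0 := by
    rw [hl']
    exact zeta hN hL hInv hLin (fun c hc χ => S.diag hN (Nat.zero_le j) hS hc χ) hβ hl
  have h2 : δ • β - β = m • (α + β) - (α + β) := by
    rw [← hm', smul_add, hδ]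
    abel
  have h3 : D F (α + β) (δ • β - β) = 0 := by
    rw [h2]
    refine hS m hm _ ?_
    rw [← h2]
    exact InM.move hN hL hβ δ
  rw [h1, h3, sub_zero]

/-- last step of a level: the first condition of the next level -/
theorem step_three' (hN : Sys N M) (hInv : Inv N F) (hI : ∀ γ : Γ, ∀ x ∈ I, γ • x ∈ I)
    (hS : S N I 0 (j + 1) F) (γ : Γ) :
    ∀ c ∈ N j, ∀ χ : M, D (tw γ F) χ (c • χ - χ) = 0 := by
  intro c hc χ
  obtain ⟨δ, hδ, hδ'⟩ := hN.norm (U := U) γ χ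
  obtain ⟨h1, h2⟩ := expand hInv (hN.anti (Nat.zero_le j) hc) hδ
  rw [D_tw, hδ' F hInv, hδ, h2]
  have he := e_mem hN hc δ
  rw [S.diag hN (Nat.zero_le (j + 1)) hS he χ, zero_sub, neg_eq_zero]
  obtain ⟨l, hl, hl'⟩ := hN.loc δ (c • χ - χ)
  rw [hl']
  refine hS l hl _ ?_
  rw [← hl']
  have h3 : δ • (c • χ - χ) - (c • χ - χ) = c • ((c⁻¹ * δ * c * δ⁻¹) • χ - χ) := by
    rw [← h1, smul_inv_smul]
  rw [h3]
  exact InM.smul hN hI (InM.of_mem _ he χ) c

/-- the final step -/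
theorem step_last (hN : Sys N M) (hInv : Inv N F)
    (hS : ∀ c ∈ N 0, ∀ χ : M, D F χ (c • χ - χ) = 0) (γ : Γ) (α β : M) :
    D (tw γ F) α β = 0 := by
  obtain ⟨δ, hδ, hδ'⟩ := hN.norm (U := U) γ α
  rw [D_tw, hδ' F hInv, hδ, D_move]
  obtain ⟨l, hl, hl'⟩ := hN.loc δ β
  obtain ⟨m, hm, hm'⟩ := hN.loc δ (α + β)
  have h1 : D F β (δ • β - β) = 0 := by
    rw [hl']
    exact hS l hl _
  have h2 : δ • β - β = m • (α + β) - (α + β) := by
    rw [← hm', smul_add, hδ]
    abel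
  rw [h1, h2, hS m hm, sub_zero]

/-- `n` differences make `F` additive -/
def Kill (Γ : Type*) {M U : Type*} [Group Γ] [AddCommGroup M] [AddCommGroup U]
    [DistribMulAction Γ M] : ℕ → (M → U) → Prop
  | 0, F => ∀ a b, D F a b = 0
  | n + 1, F => ∀ γ : Γ, Kill Γ n (tw γ F)

/-- the subgroup generated by the `c φ - φ`, `c ∈ N j` -/
def II (N : ℕ → Subgroup Γ) (M : Type*) [AddCommGroup M] [DistribMulAction Γ M] (j : ℕ) :
    AddSubgroup M :=
  AddSubgroup.closure {x | ∃ c ∈ N j, ∃ φ : M, x = c • φ - φ}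

theorem II_lev (hN : Sys N M) (j : ℕ) : Lev N (II N M (j + 1)) j := by
  constructor
  · intro γ x hx
    refine AddSubgroup.closure_induction (p := fun x _ => γ • x ∈ II N M (j + 1)) ?_ ?_ ?_ ?_ hx
    · rintro _ ⟨c, hc, φ, rfl⟩
      refine AddSubgroup.subset_closure ⟨γ * c * γ⁻¹, hN.conj_mem hc γ, γ • φ, ?_⟩
      simp only [smul_sub, mul_smul, inv_smul_smul]
    · rw [smul_zero]; exact AddSubgroup.zero_mem _
    · intro x y _ _ hx hy
      rw [smul_add]
      exact AddSubgroup.add_mem _ hx hy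
    · intro x _ hx
      rw [smul_neg]
      exact AddSubgroup.neg_mem _ hx
  · intro c hc φ
    exact AddSubgroup.subset_closure ⟨c, hc, φ, rfl⟩

theorem lin_of_gen {j : ℕ} (h0 : F 0 = 0)
    (h : ∀ α : M, ∀ c ∈ N j, ∀ φ : M, D F α (c • φ - φ) = 0) : Lin (II N M j) F := by
  intro a b hb
  refine AddSubgroup.closure_induction (p := fun b _ => ∀ a, D F a b = 0) ?_ ?_ ?_ ?_ hb a
  · rintro _ ⟨c, hc, φ, rfl⟩ a
    exact h a c hc φ
  · intro a
    simp [D, h0]
  · intro x y _ _ hx hy a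
    have h1 := hx a
    have h2 := hy (a + x)
    have h3 := hy x
    simp only [D] at *
    rw [add_assoc] at h2
    linear_combination (norm := abel) h1 + h2 - h3
  · intro x _ hx a
    have h1 := hx (a - x)
    have h2 := hx (-x)
    simp only [D, sub_add_cancel, neg_add_cancel, h0] at *
    rw [← sub_eq_add_neg]
    linear_combination (norm := abel) h2 - h1

/-- number of steps after the first one -/
def T : ℕ → ℕ
  | 0 => 1
  | j + 1 => (j + 1) + 1 + T j

theorem Lin.zero (hLin : Lin I F) : F 0 = 0 := by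
  have := hLin 0 0 I.zero_mem
  simpa [D] using this

theorem kill_state (hN : Sys N M) (j : ℕ) : ∀ F : M → U, Inv N F → Lin (II N M (j + 1)) F →
    (∀ c ∈ N j, ∀ χ : M, D F χ (c • χ - χ) = 0) → Kill Γ (T j) F := by
  induction j with
  | zero =>
    intro F hInv _ hS γ a b
    exact step_last hN hInv hS γ a b
  | succ j ih =>
    have hL := II_lev (M := M) hN (j + 1)
    have inner : ∀ i, i ≤ j + 1 → ∀ F : M → U, Inv N F → Lin (II N M (j + 1 + 1)) F →
        S N (II N M (j + 1 + 1)) i (j + 1) F → Kill Γ (i + 1 + T j) F := by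
      intro i
      induction i with
      | zero =>
        intro _ F hInv hLin hS
        rw [show 0 + 1 + T j = T j + 1 by ring]
        intro γ
        refine ih _ (hInv.tw hN γ) ?_ ?_
        · refine lin_of_gen ?_ ?_
          · simp [tw, hLin.zero]
          · intro α c hc φ
            exact step_three hN hL hInv hLin hS γ α (InM.of_mem c hc φ)
        · exact step_three' hN hInv hL.stab hS γ
      | succ i ihi =>
        intro hij F hInv hLin hS
        rw [show i + 1 + 1 + T j = (i + 1 + T j) + 1 by ring]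
        intro γ
        exact ihi (by omega) _ (hInv.tw hN γ) (hLin.tw hL.stab γ)
          (step_two hN hL hInv hLin hij hS γ)
    intro F hInv hLin hS
    exact inner (j + 1) le_rfl F hInv hLin (fun c hc χ _ => hS c hc χ)

/-- main abstract theorem -/
theorem kill_main (hN : Sys N M) (k : ℕ) (htriv : ∀ c ∈ N (k + 1), ∀ φ : M, c • φ = φ)
    (hInv : Inv N F) (h0 : F 0 = 0) : Kill Γ (T k + 1) F := by
  intro γ
  have hbot : ∀ x ∈ II N M (k + 1), x = 0 := by
    intro x hx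
    refine AddSubgroup.closure_induction (p := fun x _ => x = 0) ?_ rfl ?_ ?_ hx
    · rintro _ ⟨c, hc, φ, rfl⟩
      rw [htriv c hc, sub_self]
    · rintro x y _ _ rfl rfl
      exact add_zero 0
    · rintro x _ rfl
      exact neg_zero
  have hLin : Lin (II N M (k + 1)) F := by
    intro a b hb
    rw [hbot b hb]
    simp [D, h0]
  have hL := II_lev (M := M) hN k
  exact kill_state hN k _ (hInv.tw hN γ) (hLin.tw hL.stab γ) (step_one hN hL hInv hLin γ)

theorem T_eq (k : ℕ) : 2 * T k = (k + 1) * (k + 2) := by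
  induction k with
  | zero => rfl
  | succ k ih =>
    rw [T, mul_add, ih]
    ring

/-- `Kill` is stable under sums and negatives -/
theorem Kill.add {n : ℕ} : ∀ {F F' : M → U}, Kill Γ n F → Kill Γ n F' →
    Kill Γ n (fun x => F x + F' x) := by
  induction n with
  | zero =>
    intro F F' h h' a b
    have h1 := h a b
    have h2 := h' a b
    simp only [D] at *
    linear_combination (norm := abel) h1 + h2
  | succ n ih =>
    intro F F' h h' γ
    have h1 := ih (h γ) (h' γ)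
    have h2 : tw γ (fun x => F x + F' x) = fun x => tw γ F x + tw γ F' x := by
      funext x
      simp only [tw]
      abel
    rw [h2]
    exact h1

theorem Kill.neg {n : ℕ} : ∀ {F : M → U}, Kill Γ n F → Kill Γ n (fun x => - F x) := by
  induction n with
  | zero =>
    intro F h a b
    have h1 := h a b
    simp only [D] at *
    linear_combination (norm := abel) - h1
  | succ n ih =>
    intro F h γ
    have h1 := ih (h γ)
    have h2 : tw γ (fun x => - F x) = fun x => - tw γ F x := by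
      funext x
      simp only [tw]
      abel
    rw [h2]
    exact h1

end Pool.Agent.Helper973_Cls
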