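import Mathlib
import Pool.Agent.Helper973_OutC.Base
import Pool.Agent.Helper973_Meta.Dual
import Pool.Agent.Helper973_Cls.Abstract

/-!
Application of the abstract theorem to `Γ = AutC G` acting on the characters of an abelian term
`A` of the lower central series.
-/

set_option autoImplicit false

namespace Pool.Agent.Helper973_Cls

open Subgroup Pool.Agent.Helper973_OutC Pool.Agent.Helper973_Meta
open scoped commutatorElement

variable {G : Type*} [Group G]

/-- `w` is simulated at every point by an element of `A` -/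
def SimA (A : Subgroup G) (w : MulAut G) : Prop :=
  ∀ g : G, ∃ z ∈ A, w g = z * g * z⁻¹

theorem SimA.mem {A : Subgroup G} [hn : A.Normal] {w : MulAut G} (h : SimA A w) (x : G) :
    w x * x⁻¹ ∈ A := by
  obtain ⟨z, hz, hz'⟩ := h x
  rw [hz']
  have : z * x * z⁻¹ * x⁻¹ = z * (x * z⁻¹ * x⁻¹) := by group
  rw [this]
  exact A.mul_mem hz (hn.conj_mem _ (A.inv_mem hz) x)

/-- a class-preserving automorphism restricted to a normal subgroup -/
def res (A : Subgroup G) [hn : A.Normal] (γ : AutC G) : A →* A where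
  toFun a := ⟨(γ : MulAut G) a, by
    obtain ⟨y, hy⟩ := isConj_iff.1 (γ.2 a)
    rw [← hy]
    exact hn.conj_mem _ a.2 y⟩
  map_one' := by apply Subtype.ext; simp
  map_mul' a b := by apply Subtype.ext; simp

theorem res_coe (A : Subgroup G) [A.Normal] (γ : AutC G) (a : A) :
    ((res A γ a : A) : G) = (γ : MulAut G) a := rfl

theorem res_one (A : Subgroup G) [A.Normal] (a : A) : res A 1 a = a := rfl

theorem res_mul (A : Subgroup G) [A.Normal] (γ δ : AutC G) (a : A) :
    res A (γ * δ) a = res A γ (res A δ a) := rfl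

/-- the character group of `A`, written additively -/
abbrev Ch (A : Subgroup G) : Type _ := Additive (A →* ℂˣ)

instance act (A : Subgroup G) [A.Normal] : DistribMulAction (AutC G) (Ch A) where
  smul γ θ := Additive.ofMul ((Additive.toMul θ).comp (res A γ⁻¹))
  one_smul θ := by
    change Additive.ofMul ((Additive.toMul θ).comp (res A 1⁻¹)) = θ
    rw [inv_one]
    rfl
  mul_smul γ δ θ := by
    change Additive.ofMul ((Additive.toMul θ).comp (res A (γ * δ)⁻¹))
      = Additive.ofMul (((Additive.toMul θ).comp (res A δ⁻¹)).comp (res A γ⁻¹))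
    rw [mul_inv_rev]
    rfl
  smul_zero γ := rfl
  smul_add γ θ θ' := rfl

/-- evaluation of a character -/
def ev {A : Subgroup G} (θ : Ch A) (a : A) : Additive ℂˣ := Additive.ofMul ((Additive.toMul θ) a)

theorem ev_smul {A : Subgroup G} [A.Normal] (γ : AutC G) (θ : Ch A) (a : A) :
    ev (γ • θ) a = ev θ (res A γ⁻¹ a) := rfl

theorem ev_add {A : Subgroup G} (θ θ' : Ch A) (a : A) : ev (θ + θ') a = ev θ a + ev θ' a := rfl

theorem ev_mul {A : Subgroup G} (θ : Ch A) (a b : A) : ev θ (a * b) = ev θ a + ev θ b := by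
  simp only [ev, map_mul, ofMul_mul]

theorem ev_inv {A : Subgroup G} (θ : Ch A) (a : A) : ev θ a⁻¹ = - ev θ a := by
  simp only [ev, map_inv, ofMul_inv]

theorem ev_one {A : Subgroup G} (θ : Ch A) : ev θ (1 : A) = 0 := by
  simp only [ev, map_one, ofMul_one]

/-- inner automorphisms as elements of `AutC G` -/
def inn : G →* AutC G :=
  (MulAut.conj : G →* MulAut G).codRestrict (AutC G)
    (fun g x => isConj_iff.2 ⟨g, (MulAut.conj_apply g x).symm⟩)

theorem inn_apply (g x : G) : ((inn g : AutC G) : MulAut G) x = g * x * g⁻¹ :=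
  MulAut.conj_apply g x

theorem inn_conj (γ : AutC G) (g : G) : γ * inn g * γ⁻¹ = inn ((γ : MulAut G) g) := by
  apply Subtype.ext
  ext x
  change (γ : MulAut G) (g * ((γ : MulAut G)⁻¹ x) * g⁻¹) = (γ : MulAut G) g * x * ((γ : MulAut G) g)⁻¹
  rw [map_mul, map_mul, map_inv, MulAut.apply_inv_self]

theorem res_inn (A : Subgroup G) [A.Normal] (g : G) (a : A) :
    ((res A (inn g) a : A) : G) = g * a * g⁻¹ := by
  rw [res_coe, inn_apply]

/-- the chain of subgroups of `AutC G` -/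
def NN (G : Type*) [Group G] (i : ℕ) : Subgroup (AutC G) := (gam G i).map inn

theorem sys [Finite G] (A : Subgroup G) [A.Normal] : Sys (NN G) (Ch A) := by
  constructor
  · intro i j hij
    exact Subgroup.map_mono (gam_anti hij)
  · rintro i γ _ ⟨g, hg, rfl⟩
    refine ⟨(γ : MulAut G) g * g⁻¹, deep_of_autC _ γ.2 i g hg, ?_⟩
    rw [inn_conj, map_mul, map_inv]
  · intro γ θ
    obtain ⟨c, hc⟩ := dual_local (MulAut.conjNormal : G →* MulAut A) (res A γ⁻¹) (by
      intro a
      obtain ⟨y, hy⟩ := isConj_iff.1 ((γ⁻¹).2 (a : G))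
      refine ⟨y, ?_⟩
      apply Subtype.ext
      rw [MulAut.conjNormal_apply, hy]
      rfl) (Additive.toMul θ)
    refine ⟨inn c⁻¹, ⟨c⁻¹, by simp [gam], rfl⟩, ?_⟩
    apply Additive.toMul.injective
    ext a
    change ((Additive.toMul θ) (res A γ⁻¹ a) : ℂ) = ((Additive.toMul θ) (res A (inn c⁻¹)⁻¹ a) : ℂ)
    have e : (MulAut.conjNormal : G →* MulAut A) c a = res A (inn c⁻¹)⁻¹ a := by
      apply Subtype.ext
      rw [MulAut.conjNormal_apply, ← map_inv, inv_inv, res_inn]
    rw [hc a, e]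

/-- `W` is the function `x ↦ w(x) x⁻¹` -/
def IsW {A : Subgroup G} (w : MulAut G) (W : G → A) : Prop := ∀ x, (W x : G) = w x * x⁻¹

theorem IsW.unique {A : Subgroup G} {w : MulAut G} {W W' : G → A} (h : IsW w W) (h' : IsW w W') :
    W = W' := by
  funext x
  apply Subtype.ext
  rw [h, h']

theorem IsW.mul {A : Subgroup G} [A.Normal] {w : MulAut G} {W : G → A} (hW : IsW w W) (x c : G) :
    W (x * c) = W x * res A (inn x) (W c) := by
  apply Subtype.ext
  rw [hW, Subgroup.coe_mul, res_inn, hW, hW, map_mul]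
  group

/-- at every point `W` is a commutator with an element of `A` -/
theorem IsW.sim {A : Subgroup G} [A.Normal] {w : MulAut G} (hw : SimA A w) {W : G → A}
    (hW : IsW w W) (x : G) : ∃ z : A, W x = z * (res A (inn x) z)⁻¹ := by
  obtain ⟨z, hz, hz'⟩ := hw x
  refine ⟨⟨z, hz⟩, ?_⟩
  apply Subtype.ext
  rw [hW, hz', Subgroup.coe_mul, Subgroup.coe_inv, res_inn]
  group

/-- `F` represents `w` -/
def Rep {A : Subgroup G} [A.Normal] (w : MulAut G) (F : Ch A → Additive ℂˣ) : Prop :=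
  ∀ W : G → A, IsW w W → ∀ (x : G) (θ : Ch A), F (inn x • θ) = F θ + ev (inn x • θ) (W x)

theorem SimA.exists_W {A : Subgroup G} [A.Normal] {w : MulAut G} (hw : SimA A w) :
    ∃ W : G → A, IsW w W := ⟨fun x => ⟨w x * x⁻¹, hw.mem x⟩, fun _ => rfl⟩

theorem well {A : Subgroup G} [A.Normal] {w : MulAut G} (hw : SimA A w) {W : G → A}
    (hW : IsW w W) {g g' : G} {ρ θ : Ch A} (h : θ = inn g • ρ) (h' : θ = inn g' • ρ) :
    ev θ (W g) = ev θ (W g') := by
  have h1 : g' = g * (g⁻¹ * g') := by group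
  obtain ⟨z, hz⟩ := hW.sim hw (g⁻¹ * g')
  have h3 : ev θ (res A (inn g) (W (g⁻¹ * g'))) = 0 := by
    have h4 : ∀ b : A, ev θ (res A (inn g) b) = ev ρ b := by
      intro b
      rw [h, ev_smul, ← res_mul, inv_mul_cancel, res_one]
    have h5 : ∀ b : A, ev θ (res A (inn g) (res A (inn (g⁻¹ * g')) b)) = ev ρ b := by
      intro b
      rw [← res_mul, ← map_mul, ← h1, h', ev_smul, ← res_mul, inv_mul_cancel, res_one]
    rw [hz, map_mul, ev_mul, map_inv, ev_inv, h4, h5, add_neg_cancel]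
  conv_rhs => rw [h1, hW.mul, ev_mul, h3, add_zero]

/-- existence of a representing function -/
theorem exists_rep {A : Subgroup G} [A.Normal] {w : MulAut G} (hw : SimA A w) :
    ∃ F : Ch A → Additive ℂˣ, Rep w F ∧ Inv (NN G) F ∧ F 0 = 0 := by
  classical
  obtain ⟨W, hW⟩ := hw.exists_W
  let s : Setoid (Ch A) :=
    { r := fun θ θ' => ∃ x : G, θ' = inn x • θ
      iseqv :=
        { refl := fun θ => ⟨1, by rw [map_one, one_smul]⟩
          symm := by
            rintro θ θ' ⟨x, rfl⟩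
            exact ⟨x⁻¹, by rw [map_inv, inv_smul_smul]⟩
          trans := by
            rintro θ θ' θ'' ⟨x, rfl⟩ ⟨y, rfl⟩
            exact ⟨y * x, by rw [map_mul, mul_smul]⟩ } }
  have hex : ∀ θ : Ch A, ∃ x : G, θ = inn x • (Quotient.out (Quotient.mk s θ)) := by
    intro θ
    exact Quotient.exact (Quotient.out_eq (Quotient.mk s θ))
  choose g hg using hex
  have hrep : ∀ (x : G) (θ : Ch A),
      ev (inn x • θ) (W (g (inn x • θ))) = ev θ (W (g θ)) + ev (inn x • θ) (W x) := by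
    intro x θ
    have h1 : Quotient.mk s (inn x • θ) = Quotient.mk s θ := by
      apply Quotient.sound
      exact ⟨x⁻¹, by rw [map_inv, inv_smul_smul]⟩
    have h2 := hg (inn x • θ)
    rw [h1] at h2
    have h3 : inn x • θ = inn (x * g θ) • (Quotient.out (Quotient.mk s θ)) := by
      rw [map_mul, mul_smul, ← hg θ]
    rw [well hw hW h2 h3, hW.mul, ev_mul, ev_smul (inn x) θ (res A (inn x) _), ← res_mul,
      inv_mul_cancel, res_one, add_comm]
  refine ⟨fun θ => ev θ (W (g θ)), ?_, ?_, rfl⟩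
  · intro W' hW' x θ
    rw [hW'.unique hW]
    exact hrep x θ
  · rintro _ ⟨x, _, rfl⟩ a b
    simp only [D]
    rw [← smul_add, hrep, hrep, hrep, smul_add, ev_add (inn x • a) (inn x • b) (W x)]
    generalize ev (a + b) (W (g (a + b))) = y
    abel

section closure

variable {A : Subgroup G} [A.Normal] (hA : ∀ a ∈ A, ∀ b ∈ A, a * b = b * a)
include hA

omit [A.Normal] in
theorem SimA.fix {w : MulAut G} (h : SimA A w) {a : G} (ha : a ∈ A) : w a = a := by
  obtain ⟨z, hz, hz'⟩ := h a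
  rw [hz', hA z hz a ha]
  group

omit [A.Normal] in
theorem SimA.mul {w v : MulAut G} (hw : SimA A w) (hv : SimA A v) : SimA A (w * v) := by
  intro x
  obtain ⟨z, hz, hz'⟩ := hw x
  obtain ⟨y, hy, hy'⟩ := hv x
  refine ⟨y * z, A.mul_mem hy hz, ?_⟩
  rw [MulAut.mul_apply, hy', map_mul, map_mul, map_inv, hw.fix hA hy, hz']
  group

omit [A.Normal] in
theorem SimA.inv {w : MulAut G} (hw : SimA A w) : SimA A w⁻¹ := by
  intro x
  obtain ⟨z, hz, hz'⟩ := hw x
  have h0 : w⁻¹ z = z := by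
    conv_lhs => rw [← hw.fix hA hz]
    exact MulAut.inv_apply_self _ _ _
  refine ⟨z⁻¹, A.inv_mem hz, ?_⟩
  have h1 : w⁻¹ (w x) = w⁻¹ (z * x * z⁻¹) := by rw [hz']
  rw [MulAut.inv_apply_self, map_mul, map_mul, map_inv, h0] at h1
  calc w⁻¹ x = z⁻¹ * (z * w⁻¹ x * z⁻¹) * z := by group
    _ = z⁻¹ * x * z := by rw [← h1]
    _ = _ := by rw [inv_inv]

omit hA in
theorem SimA.conj {w : AutC G} (hw : SimA A (w : MulAut G)) (γ : AutC G) :
    SimA A ((γ * w * γ⁻¹ : AutC G) : MulAut G) := by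
  intro x
  obtain ⟨z, hz, hz'⟩ := hw ((γ : MulAut G)⁻¹ x)
  refine ⟨(γ : MulAut G) z, (res A γ ⟨z, hz⟩).2, ?_⟩
  change (γ : MulAut G) ((w : MulAut G) ((γ : MulAut G)⁻¹ x)) = _
  rw [hz', map_mul, map_mul, map_inv, MulAut.apply_inv_self]

theorem Rep.mul {w v : MulAut G} (hw : SimA A w) (hv : SimA A v) {F F' : Ch A → Additive ℂˣ}
    (hF : Rep w F) (hF' : Rep v F') : Rep (w * v) (fun θ => F θ + F' θ) := by
  intro V hV x θ
  obtain ⟨Ww, hWw⟩ := hw.exists_W
  obtain ⟨Wv, hWv⟩ := hv.exists_W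
  have h1 : V x = Wv x * Ww x := by
    apply Subtype.ext
    rw [hV, Subgroup.coe_mul, MulAut.mul_apply]
    have h2 : v x = (Wv x : G) * x := by rw [hWv]; simp
    have h3 : w x = (Ww x : G) * x := by rw [hWw]; simp
    rw [h2, map_mul, hw.fix hA (Wv x).2, h3]
    group
  simp only []
  rw [hF Ww hWw, hF' Wv hWv, h1, ev_mul]
  abel

theorem Rep.inv {w : MulAut G} (hw : SimA A w) {F : Ch A → Additive ℂˣ}
    (hF : Rep w F) : Rep w⁻¹ (fun θ => - F θ) := by
  intro V hV x θ
  obtain ⟨Ww, hWw⟩ := hw.exists_W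
  have h1 : V x = (Ww x)⁻¹ := by
    apply eq_inv_of_mul_eq_one_left
    apply Subtype.ext
    have h4 : (V x : G) * x = w⁻¹ x := by rw [hV]; simp
    have h5 : w ((V x : G) * x) = x := by rw [h4, MulAut.apply_inv_self]
    rw [map_mul, hw.fix hA (V x).2] at h5
    rw [Subgroup.coe_mul, hWw, ← mul_assoc, h5, mul_inv_cancel]
    rfl
  simp only []
  rw [hF Ww hWw, h1, ev_inv]
  abel

omit hA in
theorem Rep.conj {w : AutC G} (hw : SimA A (w : MulAut G)) {F : Ch A → Additive ℂˣ}
    (hF : Rep (w : MulAut G) F) (γ : AutC G) :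
    Rep ((γ * w * γ⁻¹ : AutC G) : MulAut G) (fun θ => F (γ⁻¹ • θ)) := by
  intro V hV x θ
  obtain ⟨Ww, hWw⟩ := hw.exists_W
  have h1 : V x = res A γ (Ww (((γ⁻¹ : AutC G) : MulAut G) x)) := by
    apply Subtype.ext
    rw [hV, res_coe, hWw, map_mul, map_inv]
    change (γ : MulAut G) ((w : MulAut G) ((γ : MulAut G)⁻¹ x)) * x⁻¹
      = (γ : MulAut G) ((w : MulAut G) ((γ : MulAut G)⁻¹ x)) * ((γ : MulAut G) ((γ : MulAut G)⁻¹ x))⁻¹
    rw [MulAut.apply_inv_self]
  have h2 : γ⁻¹ • inn x • θ = inn (((γ⁻¹ : AutC G) : MulAut G) x) • γ⁻¹ • θ := by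
    rw [← mul_smul, ← mul_smul, ← inn_conj]
    congr 1
    group
  simp only []
  rw [h2, hF Ww hWw, ← h2, h1, ev_smul, inv_inv]

end closure

/-- the subgroup of the `w` represented by a function killed by `n` differences -/
def Kp (A : Subgroup G) [A.Normal] (hA : ∀ a ∈ A, ∀ b ∈ A, a * b = b * a) (n : ℕ) :
    Subgroup (AutC G) where
  carrier := {w | SimA A (w : MulAut G) ∧ ∃ F : Ch A → Additive ℂˣ, Rep (w : MulAut G) F ∧
    Kill (AutC G) n F}
  one_mem' := by
    refine ⟨fun x => ⟨1, A.one_mem, by simp⟩, fun _ => 0, ?_, ?_⟩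
    · intro W hW x θ
      have h1 : W x = 1 := by
        apply Subtype.ext
        rw [hW]
        simp
      rw [h1, ev_one, add_zero]
    · clear hA
      have key : ∀ n, Kill (AutC G) n (fun _ : Ch A => (0 : Additive ℂˣ)) := by
        intro n
        induction n with
        | zero => intro a b; simp [D]
        | succ n ih =>
          intro γ
          have : tw γ (fun _ : Ch A => (0 : Additive ℂˣ)) = fun _ => 0 := by
            funext x
            simp [tw]
          rw [this]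
          exact ih
      exact key n
  mul_mem' := by
    rintro w v ⟨hw, F, hF, hK⟩ ⟨hv, F', hF', hK'⟩
    exact ⟨hw.mul hA hv, _, Rep.mul hA hw hv hF hF', hK.add hK'⟩
  inv_mem' := by
    rintro w ⟨hw, F, hF, hK⟩
    exact ⟨hw.inv hA, _, Rep.inv hA hw hF, hK.neg⟩

theorem Kp_commutator {A : Subgroup G} [A.Normal] (hA : ∀ a ∈ A, ∀ b ∈ A, a * b = b * a) {n : ℕ}
    {w : AutC G} (hw : w ∈ Kp A hA (n + 1)) (γ : AutC G) : ⁅w, γ⁆ ∈ Kp A hA n := by
  obtain ⟨hw, F, hF, hK⟩ := hw
  have h1 : ⁅w, γ⁆ = w * (γ * w * γ⁻¹)⁻¹ := by rw [commutatorElement_def]; group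
  have h2 := SimA.conj hw γ
  have h3 := Rep.conj hw hF γ
  have h4 : SimA A ((⁅w, γ⁆ : AutC G) : MulAut G) := by
    rw [h1]
    exact hw.mul hA (h2.inv hA)
  refine ⟨h4, fun θ => F θ + - F (γ⁻¹ • θ), ?_, ?_⟩
  · rw [h1]
    exact Rep.mul hA hw (h2.inv hA) hF (Rep.inv hA h2 h3)
  · have h5 := (hK γ⁻¹).neg
    have h6 : (fun x => - tw γ⁻¹ F x) = fun θ => F θ + - F (γ⁻¹ • θ) := by
      funext θ
      simp only [tw]
      abel
    rwa [h6] at h5

theorem dual_dual {A : Type*} [CommGroup A] [Finite A] (ψ : (A →* ℂˣ) →* ℂˣ) :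
    ∃ a : A, ∀ φ : A →* ℂˣ, ψ φ = φ a :=
  ⟨CommGroup.monoidHomMonoidHomEquiv A ℂ ψ, fun φ =>
    (CommGroup.apply_monoidHomMonoidHomEquiv (G := A) (M := ℂ) φ ψ).symm⟩

theorem separate {A : Type*} [CommGroup A] [Finite A] {a b : A}
    (h : ∀ φ : A →* ℂˣ, φ a = φ b) : a = b := by
  by_contra hne
  have h1 : a * b⁻¹ ≠ 1 := by
    intro h2
    exact hne (mul_inv_eq_one.1 h2)
  obtain ⟨φ, hφ⟩ := CommGroup.exists_apply_ne_one_of_hasEnoughRootsOfUnity A ℂ h1
  apply hφ
  rw [map_mul, map_inv, h φ, mul_inv_cancel]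

theorem Kp_zero [Finite G] {A : Subgroup G} [A.Normal] (hA : ∀ a ∈ A, ∀ b ∈ A, a * b = b * a) :
    Kp A hA 0 ≤ InnC G := by
  rintro w ⟨hw, F, hF, hK⟩
  have hadd : ∀ θ θ' : Ch A, F (θ + θ') = F θ + F θ' := by
    intro θ θ'
    have := hK θ θ'
    rw [D, sub_eq_zero] at this
    exact this.symm
  have h0 : F 0 = 0 := by
    have : F 0 = F 0 + F 0 := (congrArg F (add_zero (0 : Ch A))).symm.trans (hadd 0 0)
    exact left_eq_add.mp this
  let _ : CommGroup A :=
    { (inferInstance : Group A) with mul_comm := fun a b => Subtype.ext (hA a a.2 b b.2) }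
  let ψ : (A →* ℂˣ) →* ℂˣ :=
    { toFun := fun φ => Additive.toMul (F (Additive.ofMul φ))
      map_one' := by
        change Additive.toMul (F 0) = 1
        rw [h0]
        rfl
      map_mul' := by
        intro φ φ'
        change Additive.toMul (F (Additive.ofMul φ + Additive.ofMul φ')) = _
        rw [hadd]
        rfl }
  obtain ⟨a, ha⟩ := dual_dual ψ
  have ha' : ∀ θ : Ch A, F θ = ev θ a := fun θ => congrArg Additive.ofMul (ha (Additive.toMul θ))
  obtain ⟨W, hW⟩ := hw.exists_W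
  refine ⟨(a : G), ?_⟩
  ext x
  have h1 : W x = a * (res A (inn x) a)⁻¹ := by
    apply separate
    intro φ
    set θ : Ch A := inn x⁻¹ • Additive.ofMul φ with hθ
    have h2 : inn x • θ = Additive.ofMul φ := by
      rw [hθ, map_inv, smul_inv_smul]
    have h3 := hF W hW x θ
    rw [h2, ha', ha'] at h3
    have h4 : ev θ a = ev (Additive.ofMul φ) (res A (inn x) a) := by
      rw [hθ, map_inv, ev_smul, inv_inv]
    rw [h4] at h3
    have h5 : ev (Additive.ofMul φ : Ch A) (W x)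
        = ev (Additive.ofMul φ) (a * (res A (inn x) a)⁻¹) := by
      rw [ev_mul, ev_inv, h3]
      abel
    exact congrArg Additive.toMul h5
  change (a : G) * x * (a : G)⁻¹ = (w : MulAut G) x
  have h4 : (w : MulAut G) x = (W x : G) * x := by rw [hW]; simp
  rw [h4, h1, Subgroup.coe_mul, Subgroup.coe_inv, res_inn]
  group

/-- the main theorem in terms of the lower central series of `AutC G` -/
theorem lcs_le_InnC [Finite G] (m k : ℕ) (hA : ∀ a ∈ gam G m, ∀ b ∈ gam G m, a * b = b * a)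
    (hc : ∀ a ∈ gam G m, ∀ u ∈ gam G (k + 1), a * u = u * a) :
    (⊤ : Subgroup (AutC G)).lowerCentralSeries (m + (T k + 1)) ≤ InnC G := by
  have h0 : (⊤ : Subgroup (AutC G)).lowerCentralSeries m ≤ Kp (gam G m) hA (T k + 1) := by
    intro w hw
    have hs : SimA (gam G m) (w : MulAut G) := fun x => (lcs_le_SimAt x m hw).2
    obtain ⟨F, hF, hI, hz⟩ := exists_rep hs
    refine ⟨hs, F, hF, kill_main (sys (gam G m)) k ?_ hI hz⟩
    rintro _ ⟨u, hu, rfl⟩ θ
    apply Additive.toMul.injective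
    ext a
    change ((Additive.toMul θ) (res (gam G m) (inn u)⁻¹ a) : ℂ) = ((Additive.toMul θ) a : ℂ)
    congr 3
    apply Subtype.ext
    rw [← map_inv, res_inn, inv_inv]
    have := hc a a.2 u hu
    rw [mul_assoc, this]
    group
  have h1 : ∀ i n, T k + 1 = i + n →
      (⊤ : Subgroup (AutC G)).lowerCentralSeries (m + i) ≤ Kp (gam G m) hA n := by
    intro i
    induction i with
    | zero =>
      intro n hn
      rw [zero_add] at hn
      rw [← hn]
      exact h0
    | succ i ih =>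
      intro n hn
      rw [← add_assoc, Subgroup.lowerCentralSeries_succ, Subgroup.commutator_le]
      intro w hw γ _
      exact Kp_commutator hA (ih (n + 1) (by omega) hw) γ
  exact (h1 (T k + 1) 0 rfl).trans (Kp_zero hA)

theorem outC_lcs {n : ℕ}
    (h : (⊤ : Subgroup (AutC G)).lowerCentralSeries n ≤ InnC G) :
    (⊤ : Subgroup (OutC G)).lowerCentralSeries n = ⊥ := by
  have h1 : (⊤ : Subgroup (OutC G)) = (⊤ : Subgroup (AutC G)).map (QuotientGroup.mk' (InnC G)) :=
    (Subgroup.map_top_of_surjective _ (QuotientGroup.mk'_surjective _)).symm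
  rw [h1, ← Subgroup.map_lowerCentralSeries, Subgroup.map_eq_bot_iff, QuotientGroup.ker_mk']
  exact h

end Pool.Agent.Helper973_Cls
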